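import Pool.Agent.Helper26.KN.Goals

namespace KN.PkFD

open Finset PowerSeries KN

lemma tri (n : ℕ) : (n + 1) * (n + 1 - 1) / 2 = n * (n - 1) / 2 + n := by
  have h1 : (n + 1) * (n + 1 - 1) = n * (n - 1) + n * 2 := by
    cases n with
    | zero => rfl
    | succ m =>
      simp only [Nat.add_sub_cancel]
      ring
  rw [h1, Nat.add_mul_div_right _ _ (by norm_num)]

lemma dFs (lam : ℝ) : d⁄dX ℝ (Fs lam) = rescale lam (Fs lam) := by
  ext n
  rw [coeff_derivative, coeff_rescale]
  unfold Fs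
  rw [coeff_mk, coeff_mk, tri, Nat.factorial_succ, pow_add]
  have h1 : (n.factorial : ℝ) ≠ 0 := by positivity
  have h2 : ((n : ℝ) + 1) ≠ 0 := by positivity
  push_cast
  field_simp

lemma dresc (lam : ℝ) (G : PowerSeries ℝ) :
    d⁄dX ℝ (rescale lam G) = C lam * rescale lam (d⁄dX ℝ G) := by
  ext n
  rw [coeff_derivative, coeff_rescale, coeff_C_mul, coeff_rescale, coeff_derivative, pow_succ]
  ring

lemma cc0 (lam : ℝ) : constantCoeff (Fs lam) = 1 := by
  rw [← coeff_zero_eq_constantCoeff_apply]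
  unfold Fs
  rw [coeff_mk]
  simp

theorem fd : G_FD := by
  intro lam
  have hF := dFs lam
  have h0 := cc0 lam
  have hinv : Fs lam * (Fs lam)⁻¹ = 1 := PowerSeries.mul_inv_cancel _ (by rw [h0]; exact one_ne_zero)
  have hHF : Hs lam * Fs lam = d⁄dX ℝ (Fs lam) := by
    unfold Hs
    rw [mul_assoc, mul_comm ((Fs lam)⁻¹), hinv, mul_one]
  have hne : Fs lam ≠ 0 := by
    intro h
    rw [h] at h0
    simp at h0
  refine ⟨hF, ?_, ?_⟩
  · have h1 := congrArg (fun G : PowerSeries ℝ => constantCoeff G) hHF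
    simp only [map_mul, h0, mul_one] at h1
    rw [h1, hF, ← coeff_zero_eq_constantCoeff_apply, coeff_rescale, pow_zero, one_mul,
      coeff_zero_eq_constantCoeff_apply, h0]
  · have h1 : d⁄dX ℝ (Hs lam * Fs lam) = d⁄dX ℝ (rescale lam (Fs lam)) := by
      rw [hHF, hF]
    rw [dresc, hF] at h1
    have h2 : rescale lam (Fs lam) = Hs lam * Fs lam := by rw [hHF, hF]
    have h3 : rescale lam (rescale lam (Fs lam)) = rescale lam (Hs lam) * (Hs lam * Fs lam) := by
      conv_lhs => rw [h2, map_mul, h2]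
    rw [h3] at h1
    have h4 : d⁄dX ℝ (Hs lam * Fs lam) = Hs lam * rescale lam (Fs lam) + Fs lam * d⁄dX ℝ (Hs lam) := by
      rw [Derivation.leibniz, hF]
      simp [smul_eq_mul]
    rw [h4, h2] at h1
    have h5 : Fs lam * d⁄dX ℝ (Hs lam) = Fs lam * (Hs lam * (up lam (Hs lam) - Hs lam)) := by
      unfold up
      linear_combination h1
    exact mul_left_cancel₀ hne h5

end KN.PkFD
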